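import Mathlib
import Pool.Agent.H958.RO.Stm

/-!
# Project RO: far apart vertices are unrelated
-/

set_option autoImplicit false

namespace Pool.Agent.H407.RO.Unrel

open Finset
open scoped Classical
open Pool.Agent.W830.RD (Om gle)
open Pool.Agent.H958.RO

/-- Concatenation of walks adds the numbers of block changes. -/
theorem ic_append {n : ℕ} (bl : Fin n → ℕ) {G : SimpleGraph (Fin n)} {a b c : Fin n}
    (p : G.Walk a b) (q : G.Walk b c) : ic bl (p.append q) = ic bl p + ic bl q := by
  unfold ic
  rw [SimpleGraph.Walk.darts_append, List.filter_append, List.length_append]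

/-- The reversed walk has the same number of block changes. -/
theorem ic_reverse {n : ℕ} (bl : Fin n → ℕ) {G : SimpleGraph (Fin n)} {a b : Fin n}
    (p : G.Walk a b) : ic bl p.reverse = ic bl p := by
  unfold ic
  rw [SimpleGraph.Walk.darts_reverse, List.filter_reverse, List.length_reverse,
    List.filter_map, List.length_map]
  congr 1
  apply List.filter_congr
  intro d _
  simp only [Function.comp_apply, SimpleGraph.Dart.symm, Prod.fst_swap, Prod.snd_swap]
  by_cases h : bl d.fst = bl d.snd
  · simp [h]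
  · have h' : ¬ bl d.snd = bl d.fst := fun e => h e.symm
    simp [h, h']

/-- A one step walk. -/
theorem ic_single {n : ℕ} (bl : Fin n → ℕ) {G : SimpleGraph (Fin n)} {a b : Fin n}
    (h : G.Adj a b) : ic bl (SimpleGraph.Walk.cons h SimpleGraph.Walk.nil) =
      if bl a ≠ bl b then 1 else 0 := by
  unfold ic
  rw [SimpleGraph.Walk.darts_cons, SimpleGraph.Walk.darts_nil]
  by_cases hab : bl a = bl b
  · simp [hab]
  · simp [hab]

/-- Increasing walks. -/
theorem walk_of_gle {n : ℕ} (E : Finset (Fin n × Fin n)) (bl : Fin n → ℕ) (N : Finset (Fin n))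
    (hE : E ⊆ Om n) (hbl : ∀ a b, a ≤ b → bl a ≤ bl b) {a b : Fin n}
    (h : gle (res E N) a b) : ∃ p : (GG (res E N)).Walk a b, ic bl p + bl a ≤ bl b := by
  unfold gle at h
  induction h with
  | refl => exact ⟨SimpleGraph.Walk.nil, by simp [ic]⟩
  | @tail u v huv hv ih =>
    obtain ⟨p, hp⟩ := ih
    have hvE : (u, v) ∈ E := (Finset.mem_filter.mp hv).1
    have hlt : u < v := by
      have := hE hvE
      unfold Om at this
      exact (Finset.mem_filter.mp this).2
    have hadj : (GG (res E N)).Adj u v := ⟨ne_of_lt hlt, Or.inl hv⟩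
    refine ⟨p.append (SimpleGraph.Walk.cons hadj SimpleGraph.Walk.nil), ?_⟩
    rw [ic_append, ic_single]
    have hle : bl u ≤ bl v := hbl u v hlt.le
    split_ifs with hne
    · omega
    · omega

/-- Comparable vertices are joined by walks with few block changes. -/
theorem walk_of_comp {n : ℕ} (E : Finset (Fin n × Fin n)) (bl : Fin n → ℕ) (N : Finset (Fin n))
    (T : ℕ) (hE : E ⊆ Om n) (hbl : ∀ a b, a ≤ b → bl a ≤ bl b) (hT : ∀ a, bl a < T)
    {a b : Fin n} (h : gle (res E N) a b ∨ gle (res E N) b a) :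
    ∃ p : (GG (res E N)).Walk a b, ic bl p ≤ T := by
  rcases h with h | h
  · obtain ⟨p, hp⟩ := walk_of_gle E bl N hE hbl h
    exact ⟨p, by have := hT b; omega⟩
  · obtain ⟨p, hp⟩ := walk_of_gle E bl N hE hbl h
    refine ⟨p.reverse, ?_⟩
    rw [ic_reverse]
    have := hT a
    omega

/-- UNREL: far apart vertices are unrelated. -/
theorem main : Pool.Agent.H958.RO.S_UNREL := by
  intro n E bl N Y T hE hbl hT hY y hy y' hy' hne a b ha hb hab
  obtain ⟨p, hp⟩ := walk_of_comp E bl N T hE hbl hT ha
  obtain ⟨q, hq⟩ := walk_of_comp E bl N T hE hbl hT (Or.inl hab)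
  obtain ⟨r, hr⟩ := walk_of_comp E bl N T hE hbl hT hb.symm
  refine hY y hy y' hy' hne ⟨(p.append q).append r, ?_⟩
  rw [ic_append, ic_append]
  omega

end Pool.Agent.H407.RO.Unrel
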